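import Pool.Agent.H979.BK.Stm

/-! # SM1: one swap of colours (helper895 for helper979) -/

set_option autoImplicit false

open Filter Topology Finset Pool.Agent.H979.BK

namespace Pool.Agent.H895

namespace SM1

variable {d n : ℕ}

/-- the counts as integers -/
def cz (c u : Ball d n → Fin d) (l j : Fin d) : ℤ := (cnt c u l j : ℤ)

/-- indicator of an equation -/
def ii (a b : Fin d) : ℤ := if a = b then 1 else 0

theorem cz_eq (c u : Ball d n → Fin d) (l j : Fin d) :
    cz c u l j = ∑ b, ii (u b) l * ii (c b) j := by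
  unfold cz cnt ii
  rw [Finset.card_filter]
  push_cast
  refine sum_congr rfl fun b _ => ?_
  by_cases h1 : u b = l <;> by_cases h2 : c b = j <;> simp [h1, h2]

theorem cz_swap (c v : Ball d n → Fin d) {x y : Ball d n} (hxy : x ≠ y) (l j : Fin d) :
    cz c (v ∘ Equiv.swap x y) l j =
      cz c v l j + (ii (v y) l - ii (v x) l) * (ii (c x) j - ii (c y) j) := by
  rw [cz_eq, cz_eq]
  have h : ∑ b, ii ((v ∘ Equiv.swap x y) b) l * ii (c b) j - ∑ b, ii (v b) l * ii (c b) j =
      (ii (v y) l - ii (v x) l) * (ii (c x) j - ii (c y) j) := by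
    rw [← Finset.sum_sub_distrib]
    rw [Finset.sum_eq_add x y hxy (fun b _ hb => by
      rw [Function.comp_apply, Equiv.swap_apply_of_ne_of_ne hb.1 hb.2, sub_self])
      (fun h => absurd (mem_univ x) h) (fun h => absurd (mem_univ y) h)]
    rw [Function.comp_apply, Function.comp_apply, Equiv.swap_apply_left, Equiv.swap_apply_right]
    ring
  linarith

theorem cz_comp_swap (c u : Ball d n → Fin d) (x y : Ball d n) (l j : Fin d) :
    cz (c ∘ Equiv.swap x y) u l j = cz c (u ∘ Equiv.swap x y) l j := by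
  rw [cz_eq, cz_eq]
  rw [← Equiv.sum_comp (Equiv.swap x y) fun b => ii (u b) l * ii ((c ∘ Equiv.swap x y) b) j]
  refine sum_congr rfl fun b _ => ?_
  rw [Function.comp_apply, Function.comp_apply, Equiv.swap_apply_self]

/-- products of swaps -/
theorem exists_rho {c : Ball d n → Fin d} {R : ℕ} {p q : Fin R → Ball d n}
    (hp : Function.Injective p) (hq : Function.Injective q) (hpq : ∀ r s, p r ≠ q s)
    (h1 : ∀ r, (p r).1 = (q r).1) (S : Finset (Fin R)) :
    ∃ ρ : Equiv.Perm (Ball d n), (∀ b, (ρ b).1 = b.1) ∧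
      (∀ x, (∀ r ∈ S, x ≠ p r) → (∀ r ∈ S, x ≠ q r) → ρ x = x) ∧
      ∀ (u : Ball d n → Fin d) (l j : Fin d), cz c (u ∘ ρ) l j = cz c u l j +
        ∑ r ∈ S, (ii (u (q r)) l - ii (u (p r)) l) * (ii (c (p r)) j - ii (c (q r)) j) := by
  classical
  induction S using Finset.induction_on with
  | empty => exact ⟨1, fun _ => rfl, fun _ _ _ => rfl, fun u l j => by
      rw [Finset.sum_empty, add_zero]
      rfl⟩
  | insert r S hr ih =>
    obtain ⟨ρ, ha, hb, hc⟩ := ih
    have hpf : ρ (p r) = p r := hb _ (fun s hs h => hr (hp h ▸ hs)) fun s _ => hpq r s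
    have hqf : ρ (q r) = q r := hb _ (fun s _ h => hpq s r h.symm) fun s hs h => hr (hq h ▸ hs)
    refine ⟨ρ * Equiv.swap (p r) (q r), fun b => ?_, fun x hx hy => ?_, fun u l j => ?_⟩
    · rw [Equiv.Perm.mul_apply, ha]
      by_cases h2 : b = p r
      · rw [h2, Equiv.swap_apply_left, h1]
      · by_cases h3 : b = q r
        · rw [h3, Equiv.swap_apply_right, h1]
        · rw [Equiv.swap_apply_of_ne_of_ne h2 h3]
    · rw [Equiv.Perm.mul_apply, Equiv.swap_apply_of_ne_of_ne (hx r (mem_insert_self _ _))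
        (hy r (mem_insert_self _ _))]
      exact hb x (fun s hs => hx s (mem_insert_of_mem hs)) fun s hs => hy s (mem_insert_of_mem hs)
    · have e : u ∘ (ρ * Equiv.swap (p r) (q r) : Equiv.Perm (Ball d n)) =
          (u ∘ ρ) ∘ Equiv.swap (p r) (q r) := rfl
      rw [e, cz_swap c (u ∘ ρ) (hpq r r), hc, Finset.sum_insert hr, Function.comp_apply,
        Function.comp_apply, hpf, hqf]
      ring

theorem sum_split {R : ℕ} (Q : Finset (Fin R)) (G : Finset (Fin R) → ℝ) :
    ∑ S : Finset (Fin R), G S = ∑ B ∈ Qᶜ.powerset, ∑ A ∈ Q.powerset, G (A ∪ B) := by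
  classical
  rw [← Finset.sum_product' Qᶜ.powerset Q.powerset fun B A => G (A ∪ B)]
  symm
  refine Finset.sum_nbij' (fun x => x.2 ∪ x.1) (fun S => (S ∩ Qᶜ, S ∩ Q)) ?_ ?_ ?_ ?_ ?_
  · intro x _
    exact mem_univ _
  · intro S _
    rw [mem_product, mem_powerset, mem_powerset]
    exact ⟨inter_subset_right, inter_subset_right⟩
  · rintro ⟨B, A⟩ hx
    rw [mem_product, mem_powerset, mem_powerset] at hx
    obtain ⟨hB, hA⟩ := hx
    refine Prod.ext ?_ ?_
    · ext r
      simp only [mem_inter, mem_union, mem_compl]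
      constructor
      · rintro ⟨h1 | h1, h2⟩
        · exact absurd (hA h1) h2
        · exact h1
      · intro h
        exact ⟨Or.inr h, mem_compl.1 (hB h)⟩
    · ext r
      simp only [mem_inter, mem_union]
      constructor
      · rintro ⟨h1 | h1, h2⟩
        · exact h1
        · exact absurd h2 (mem_compl.1 (hB h1))
      · intro h
        exact ⟨Or.inl h, hA h⟩
  · intro S _
    show S ∩ Q ∪ S ∩ Qᶜ = S
    ext r
    simp only [mem_inter, mem_union, mem_compl]
    tauto
  · intro x _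
    rfl

theorem binom_bound (h3 : S_BINOM) {R : ℕ} (Q : Finset (Fin R)) (h : ℕ → ℝ)
    (h0 : ∀ x, 0 ≤ h x ∧ h x ≤ 1) :
    |∑ A ∈ Q.powerset, (h A.card - h (A.card + 1))| ≤
      2 ^ Q.card * (2 / √((Q.card : ℝ) + 1)) := by
  obtain ⟨M, hM⟩ : ∃ M, M = Q.card := ⟨_, rfl⟩
  have e : ∑ A ∈ Q.powerset, (h A.card - h (A.card + 1)) =
      ∑ x ∈ range (M + 2), (((M.choose x : ℕ) : ℝ) -
        (if x = 0 then 0 else ((M.choose (x - 1) : ℕ) : ℝ))) * h x := by
    rw [Finset.sum_powerset_apply_card (fun t => h t - h (t + 1)), ← hM]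
    simp only [nsmul_eq_mul, sub_mul, mul_sub, Finset.sum_sub_distrib]
    have e1 : ∑ x ∈ range (M + 2), ((M.choose x : ℕ) : ℝ) * h x =
        ∑ x ∈ range (M + 1), ((M.choose x : ℕ) : ℝ) * h x := by
      rw [Finset.sum_range_succ _ (M + 1), Nat.choose_succ_self]
      simp
    have e2 : ∑ x ∈ range (M + 2), (if x = 0 then 0 else ((M.choose (x - 1) : ℕ) : ℝ)) * h x =
        ∑ x ∈ range (M + 1), ((M.choose x : ℕ) : ℝ) * h (x + 1) := by
      rw [Finset.sum_range_succ' _ (M + 1)]
      simp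
    rw [e1, e2]
  rw [e, ← hM]
  refine (Finset.abs_sum_le_sum_abs _ _).trans ((Finset.sum_le_sum fun x _ => ?_).trans (h3 M))
  rw [abs_mul, abs_of_nonneg (h0 x).1]
  exact mul_le_of_le_one_right (abs_nonneg _) (h0 x).2

end SM1

open SM1 in
/-- SM1 -/
theorem bk_sm1 (h1 : S_A1) (h2 : S_A2) (h3 : S_BINOM) : S_SM1 := by
  classical
  intro d n k μ hμ hk m R c b1 b2 p q g f hb hc hp hq hr hg hginv hf
  have hpq : ∀ r s, p r ≠ q s := fun r s h => hc (by
    rw [← (hr r).2.2.2.1, ← (hr s).2.2.2.2, h])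
  choose ρ hρ1 hρ2 hρ3 using exists_rho (c := c) hp hq hpq fun r => (hr r).1.trans (hr r).2.1.symm
  have hρb1 : ∀ S, ρ S b1 = b1 := fun S => hρ2 S _ (fun r _ h => (hr r).2.2.1 h.symm)
    fun r _ h => hc (by rw [h, (hr r).2.2.2.2])
  have hρb2 : ∀ S, ρ S b2 = b2 := fun S => hρ2 S _
    (fun r _ h => hb (by rw [h, (hr r).1])) fun r _ h => hb (by rw [h, (hr r).2.1])
  have hb12 : b1 ≠ b2 := fun h => hb (by rw [h])
  -- the function on integral matrices
  let F : (Fin d → Fin d → ℤ) → ℝ := fun x => f fun l j => (x l j).toNat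
  have hF : ∀ c' u : Ball d n → Fin d, f (cnt c' u) = F (cz c' u) := fun c' u => by
    show f (cnt c' u) = f fun l j => (cz c' u l j).toNat
    rfl
  have hF01 : ∀ x, 0 ≤ F x ∧ F x ≤ 1 := fun x => hf _
  -- the direction
  let W : (Ball d n → Fin d) → Fin d → Fin d → ℤ := fun u l j =>
    (ii (u b2) l - ii (u b1) l) * (ii (c b1) j - ii (c b2) j)
  have hc' : ∀ u, cz (c ∘ Equiv.swap b1 b2) u = fun l j => cz c u l j + W u l j := fun u => by
    funext l j
    rw [cz_comp_swap, cz_swap c u hb12]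
  have hWρ : ∀ S u, W (u ∘ ρ S) = W u := fun S u => by
    funext l j
    show (ii (u (ρ S b2)) l - ii (u (ρ S b1)) l) * _ = _
    rw [hρb1, hρb2]
  -- the bound for one placement
  have key : ∀ u : Ball d n → Fin d, |∑ S : Finset (Fin R), (f (cnt c (u ∘ ρ S)) -
      f (cnt (c ∘ Equiv.swap b1 b2) (u ∘ ρ S)))| ≤ 2 ^ R * (if u b1 = u b2 then 0 else
        2 / √(((univ.filter fun r => (u (p r) = u b1 ∧ u (q r) = u b2)).card : ℝ) + 1)) := by
    intro u
    by_cases hu : u b1 = u b2
    · rw [if_pos hu, mul_zero]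
      apply le_of_eq
      rw [abs_eq_zero]
      refine Finset.sum_eq_zero fun S _ => ?_
      rw [hF, hF, hc', hWρ]
      have : (fun l j => cz c (u ∘ ρ S) l j + W u l j) = cz c (u ∘ ρ S) := by
        funext l j
        show cz c (u ∘ ρ S) l j + (ii (u b2) l - ii (u b1) l) * _ = _
        rw [hu, sub_self, zero_mul, add_zero]
      rw [this, sub_self]
    · rw [if_neg hu]
      obtain ⟨Q, hQ⟩ : ∃ Q : Finset (Fin R), Q =
        univ.filter fun r => (u (p r) = u b1 ∧ u (q r) = u b2) := ⟨_, rfl⟩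
      rw [← hQ, sum_split Q]
      -- the counts
      have hcount : ∀ B ∈ Qᶜ.powerset, ∀ A ∈ Q.powerset, cz c (u ∘ ρ (A ∪ B)) =
          fun l j => cz c (u ∘ ρ B) l j + (A.card : ℤ) * W u l j := by
        intro B hB A hA
        rw [mem_powerset] at hB hA
        funext l j
        have hdis : Disjoint A B := by
          rw [Finset.disjoint_left]
          intro r h4 h5
          exact mem_compl.1 (hB h5) (hA h4)
        rw [hρ3, hρ3, Finset.sum_union hdis]
        have e : ∑ r ∈ A, (ii (u (q r)) l - ii (u (p r)) l) * (ii (c (p r)) j - ii (c (q r)) j) =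
            (A.card : ℤ) * W u l j := by
          rw [Finset.sum_congr rfl (g := fun _ => W u l j) fun r hrA => ?_, Finset.sum_const,
            nsmul_eq_mul]
          have h4 := hA hrA
          rw [hQ, mem_filter] at h4
          rw [h4.2.1, h4.2.2, (hr r).2.2.2.1, (hr r).2.2.2.2]
        rw [e]
        ring
      have hone : ∀ B ∈ Qᶜ.powerset, |∑ A ∈ Q.powerset, (f (cnt c (u ∘ ρ (A ∪ B))) -
          f (cnt (c ∘ Equiv.swap b1 b2) (u ∘ ρ (A ∪ B))))| ≤
          2 ^ Q.card * (2 / √((Q.card : ℝ) + 1)) := by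
        intro B hB
        have h5 := binom_bound h3 Q (fun t => F fun l j => cz c (u ∘ ρ B) l j + (t : ℤ) * W u l j)
          fun t => hF01 _
        refine le_trans (le_of_eq ?_) h5
        congr 1
        refine Finset.sum_congr rfl fun A hA => ?_
        rw [hF, hF, hc', hWρ, hcount B hB A hA]
        congr 2
        funext l j
        push_cast
        ring
      refine (Finset.abs_sum_le_sum_abs _ _).trans ((Finset.sum_le_sum hone).trans (le_of_eq ?_))
      rw [Finset.sum_const, nsmul_eq_mul, card_powerset, ← mul_assoc]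
      congr 1
      push_cast
      rw [← pow_add]
      congr 1
      have := Finset.card_compl_add_card Q
      rw [Fintype.card_fin] at this
      exact this
  -- averaging
  obtain ⟨P, hP0, -, -, hPE⟩ := h1 d n k μ hμ hk m
  obtain ⟨Fu, hFu⟩ : ∃ Fu : (Ball d n → Fin d) → ℝ, Fu =
    fun u => g u * (f (cnt c u) - f (cnt (c ∘ Equiv.swap b1 b2) u)) := ⟨_, rfl⟩
  rw [← hFu]
  have hav : ∀ S : Finset (Fin R), E μ k m Fu = ∑ u, P u * (g u * (f (cnt c (u ∘ ρ S)) -
      f (cnt (c ∘ Equiv.swap b1 b2) (u ∘ ρ S)))) := by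
    intro S
    rw [← (h2 d n k μ m).1 Fu (ρ S) (hρ1 S), hPE]
    refine Finset.sum_congr rfl fun u _ => ?_
    rw [hFu]
    beta_reduce
    rw [hginv _ (hρ1 S)]
  have hsum : (2 : ℝ) ^ R * E μ k m Fu = ∑ u, P u * g u * ∑ S : Finset (Fin R),
      (f (cnt c (u ∘ ρ S)) - f (cnt (c ∘ Equiv.swap b1 b2) (u ∘ ρ S))) := by
    have e1 : ∑ _S : Finset (Fin R), E μ k m Fu = (2 : ℝ) ^ R * E μ k m Fu := by
      rw [Finset.sum_const, nsmul_eq_mul, card_univ, Fintype.card_finset, Fintype.card_fin]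
      push_cast
      rfl
    rw [← e1, Finset.sum_congr rfl fun S _ => hav S, Finset.sum_comm]
    refine Finset.sum_congr rfl fun u _ => ?_
    rw [Finset.mul_sum]
    refine Finset.sum_congr rfl fun S _ => ?_
    ring
  have h2R : (0 : ℝ) < 2 ^ R := by positivity
  have hfin : (2 : ℝ) ^ R * |E μ k m Fu| ≤ 2 ^ R * E μ k m (fun u => g u *
      (if u b1 = u b2 then 0 else
        2 / √(((univ.filter fun r => (u (p r) = u b1 ∧ u (q r) = u b2)).card : ℝ) + 1))) := by
    rw [← abs_of_pos h2R, ← abs_mul, hsum, abs_of_pos h2R, hPE, Finset.mul_sum]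
    refine (Finset.abs_sum_le_sum_abs _ _).trans (Finset.sum_le_sum fun u _ => ?_)
    rw [abs_mul, abs_of_nonneg (mul_nonneg (hP0 u) (hg u))]
    refine (mul_le_mul_of_nonneg_left (key u) (mul_nonneg (hP0 u) (hg u))).trans (le_of_eq ?_)
    ring
  exact le_of_mul_le_mul_left hfin h2R

end Pool.Agent.H895
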